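import Mathlib
import Pool.Agent.U880.CT.Transfer

/-!
# Contact type energy levels between `e₀` and the Mañé critical value of the universal cover

Definitions are in `Pool.Agent.U880.CT.Defs` (and `extDer`, `SmoothForm` in
`Pool.Agent.Helper186.Forms`).

The example lives on a compact quotient `M` of the three dimensional solvable group `Sol`, with
invariant frame `T, X, Y`, `[T, X] = X`, `[T, Y] = -Y`. With the momentum functions
`P_T, P_X, P_Y : T*M → ℝ` the Hamiltonian is `H = (P_T² + (P_X - 1)² + P_Y²) / 2`, so that `e₀ = 0`,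
and `c_u = 1/2`. On `{H = h}`, `0 < h < 1/2`, the primitive `p dx + df`, `f = P_T (5 - P_X) / 4`, of
the symplectic form is, on the Hamiltonian vector field, equal to
`P_T² (1 - P_X/4) + P_X (P_X - 1)² / 4 + P_Y² (9 - P_X) / 4 > 0`.
-/

open scoped Topology ContDiff Manifold
open Set Pool.Agent.Helper186 Pool.Agent.U880.CT

namespace Pool.Agent.Results.MP_410757_gt.SolContactLevels

/-- There are a closed connected 3-manifold `M` (in particular not diffeomorphic to the 2-torus)
with universal covering `π : ℝ³ → M`, and a convex superlinear Hamiltonian `H` on `T*M` with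
`e₀ < c_u`, such that every energy level `{H = h}` with `e₀ < h < c_u` is of contact type. Here
`e₀` is the minimum of the `h` with `π(Σ_h) = M`, and `c_u = inf_u sup_x H̃(x, d_x u)` is the Mañé
critical value of the lift `H̃` of `H` to the universal cover. -/
theorem result :
    ∃ (M : Type) (_ : TopologicalSpace M) (_ : T2Space M) (_ : SecondCountableTopology M)
      (_ : CompactSpace M) (_ : ConnectedSpace M) (_ : ChartedSpace (Fin 3 → ℝ) M)
      (_ : IsManifold 𝓘(ℝ, Fin 3 → ℝ) ∞ M)
      (π : (Fin 3 → ℝ) → M) (H : TStar (Fin 3 → ℝ) M → ℝ) (e₀ c_u : ℝ),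
      IsEmpty (Diffeomorph 𝓘(ℝ, Fin 3 → ℝ) ((𝓡 1).prod (𝓡 1)) M (Circle × Circle) ∞) ∧
      IsUniversalCovering (F := Fin 3 → ℝ) π ∧
      IsConvexSuperlinear H ∧
      IsLeast (projectingLevels H) e₀ ∧
      IsGLB (criticalLevels (liftHamiltonian π H)) c_u ∧
      e₀ < c_u ∧
      ∀ h : ℝ, e₀ < h → h < c_u → IsContactType H h :=
  ⟨MM, inferInstance, inferInstance, inferInstance, inferInstance, inferInstance, inferInstance,
    inferInstance, Pool.Agent.W630.qm GG, HamT, 0, 1 / 2, no_diffeo,
    ⟨inferInstance, qm_covering, qm_localDiffeo⟩, convexSuperlinearT, minLevelT, criticalValueT,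
    by norm_num, fun _ h0 h1 => contactTypeT h0 h1⟩

end Pool.Agent.Results.MP_410757_gt.SolContactLevels
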